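import Pool.Agent.H93.PG.Targets

/-!
# The frames

Row FRA of the page `H93_PG.md`.
-/

set_option autoImplicit false

open MeasureTheory Filter Topology Finset Pool.Agent.H93.PF Pool.Agent.H93.PG

namespace Pool.Agent.H12.PG

/-- the next point is unique -/
theorem Nx_uniq {B : Set ℤ} {s : ℤ} {g g' : ℕ} (h : Nx B s g) (h' : Nx B s g') : g = g' := by
  obtain ⟨h0, h1, h2⟩ := h
  obtain ⟨h0', h1', h2'⟩ := h'
  rcases lt_trichotomy g g' with hlt | heq | hgt
  · exact absurd h1 (h2' _ (by omega) (by omega))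
  · exact heq
  · exact absurd h1' (h2 _ (by omega) (by omega))

section

variable {d : ℕ} {m : ℕ → ℕ} (c : CT d m)

/-- forward copies of the tail have no forbidden repetitions -/
theorem fwd_Fr {z : ℤ → Fin d} {s : ℤ} {R : ℕ}
    (h : ∀ i : ℕ, i < R → z (s + i) = xx c.t.Y c.t.y c.t.rt i)
    (q : ℕ) (x : ℤ) (hq : 0 < q) (hx : s ≤ x) (hx' : x + m q ≤ s + R) :
    ∃ t : ℤ, x ≤ t ∧ t + q < x + m q ∧ z (t + q) ≠ z t := by
  obtain ⟨i, rfl⟩ : ∃ i : ℕ, x = s + i := ⟨(x - s).toNat, by omega⟩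
  obtain ⟨j, hj1, hj2, hj3⟩ := c.t.c1 q i hq
  refine ⟨s + j, by omega, by omega, ?_⟩
  have e1 : s + (j : ℤ) + (q : ℤ) = s + ((j + q : ℕ) : ℤ) := by push_cast; ring
  rw [e1, h (j + q) (by omega), h j (by omega)]
  exact hj3

/-- forward copies of the tail contain no marker words -/
theorem fwd_no {z : ℤ → Fin d} {s : ℤ} {R : ℕ}
    (h : ∀ i : ℕ, i < R → z (s + i) = xx c.t.Y c.t.y c.t.rt i)
    (x : ℤ) (hx : s < x) (hx' : x + c.t.Y ≤ s + R)
    (he : ∀ i : ℕ, i < c.t.Y → z (x + i) = c.e) : False := by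
  obtain ⟨i, rfl⟩ : ∃ i : ℕ, x = s + i := ⟨(x - s).toNat, by omega⟩
  obtain ⟨j, hj1, hj2⟩ := c.t.c2 i (by omega)
  apply hj2
  rw [c.ye, ← h (i + j) (by omega), ← he j hj1]
  congr 1
  push_cast; ring

/-- reversed copies of the tail have no forbidden repetitions -/
theorem rev_Fr {z : ℤ → Fin d} {b : ℤ} {R : ℕ}
    (h : ∀ i : ℕ, i < R → z (b - 1 - i) = xx c.t.Y c.t.y c.t.rt i)
    (q : ℕ) (x : ℤ) (hq : 0 < q) (hx : b - R ≤ x) (hx' : x + m q ≤ b) :
    ∃ t : ℤ, x ≤ t ∧ t + q < x + m q ∧ z (t + q) ≠ z t := by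
  obtain ⟨i, hi⟩ : ∃ i : ℕ, (i : ℤ) = b - (x + m q) := ⟨(b - (x + m q)).toNat, by omega⟩
  obtain ⟨j, hj1, hj2, hj3⟩ := c.t.c1 q i hq
  refine ⟨b - 1 - ((j + q : ℕ) : ℤ), by push_cast; omega, by push_cast; omega, ?_⟩
  have e1 : b - 1 - ((j + q : ℕ) : ℤ) + (q : ℤ) = b - 1 - (j : ℤ) := by push_cast; ring
  rw [e1, h (j + q) (by omega), h j (by omega)]
  exact fun h' => hj3 h'.symm

/-- reversed copies of the tail contain no marker words -/
theorem rev_no {z : ℤ → Fin d} {b : ℤ} {R : ℕ}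
    (h : ∀ i : ℕ, i < R → z (b - 1 - i) = xx c.t.Y c.t.y c.t.rt i)
    (x : ℤ) (hx : b - R ≤ x) (hx' : x + c.t.Y < b)
    (he : ∀ i : ℕ, i < c.t.Y → z (x + i) = c.e) : False := by
  obtain ⟨i, hi⟩ : ∃ i : ℕ, (i : ℤ) = b - c.t.Y - x := ⟨(b - c.t.Y - x).toNat, by omega⟩
  obtain ⟨j, hj1, hj2⟩ := c.t.c2 i (by omega)
  apply hj2
  rw [c.ye, ← h (i + j) (by omega), ← he (c.t.Y - 1 - j) (by omega)]
  congr 1
  omega

variable {c} {D : TD c} {B : Set ℤ} {z : ℤ → Fin d} {col : ℤ → ℕ}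

/-- the contents start with the marker word -/
theorem cont_start (hT : Tz D B z col) {s : ℤ} (hs : s ∈ B) {g : ℕ} (hg : Nx B s g) (j : ℕ)
    (hj : j < c.t.Y) (hjn : j < D.n) : z (s + g + c.t.Y - D.n + j) = c.e := by
  obtain ⟨hc, k, hk, hw⟩ := hT.pp s hs g hg
  have hV := D.cc.mem (col s) k hc hk
  simp only [VV, Finset.mem_filter] at hV
  have hSt := hV.2.2.1
  have h1 := hSt j hjn hj
  have h2 := congrFun hw ⟨j, hjn⟩
  unfold win at h2
  rw [c.ye] at h1
  rw [← h1, ← h2]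

/-- the short frames -/
theorem short (hT : Tz D B z col) {s : ℤ} (hs : s ∈ B) (hg : Nx B s D.L) (i : ℕ)
    (hi : i < D.N0 + 2 * c.t.Y - 1) : z (s + i) = xx c.t.Y c.t.y c.t.rt i := by
  unfold xx
  have hbig := D.big
  have hY := c.t.Y0
  split_ifs with h1
  · rw [c.ye]; exact hT.y0 s hs i h1
  · by_cases h2 : i < c.t.Y + D.N0
    · rw [← hT.fs s hs hg (i - c.t.Y) (by omega)]
      congr 1
      omega
    · have h3 := (D.fr.nx (i - c.t.Y - D.N0) (by omega)).1
      have e1 : D.N0 + (i - c.t.Y - D.N0) = i - c.t.Y := by omega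
      rw [e1] at h3
      rw [h3, ← cont_start hT hs hg (i - c.t.Y - D.N0) (by omega) (by omega)]
      congr 1
      unfold TD.L
      push_cast
      omega

/-- the first part of the long frames -/
theorem long1 (hT : Tz D B z col) {s : ℤ} (hs : s ∈ B) (hg : Nx B s (D.L + 1)) (i : ℕ)
    (hi : i < D.k1 + 2 * c.t.Y - 1) : z (s + i) = xx c.t.Y c.t.y c.t.rt i := by
  unfold xx
  have hY := c.t.Y0
  split_ifs with h1
  · rw [c.ye]; exact hT.y0 s hs i h1
  · by_cases h2 : i < c.t.Y + D.k1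
    · rw [← hT.f1 s hs hg (i - c.t.Y) (by omega)]
      congr 1
      omega
    · have h3 := (D.fr.nx (i - c.t.Y - D.k1) (by omega)).2.1
      have e1 : D.k1 + (i - c.t.Y - D.k1) = i - c.t.Y := by omega
      rw [e1] at h3
      rw [h3, ← hT.f2 s hs hg (i - c.t.Y - D.k1) (by omega)]
      congr 1
      omega

/-- the second part of the long frames -/
theorem long2 (hT : Tz D B z col) {s : ℤ} (hs : s ∈ B) (hg : Nx B s (D.L + 1)) (i : ℕ)
    (hi : i < D.k2 + 2 * c.t.Y - 1) :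
    z (s + (D.k1 + D.k2 + 3 * c.t.Y : ℕ) - 1 - i) = xx c.t.Y c.t.y c.t.rt i := by
  unfold xx
  have hY := c.t.Y0
  have hbig := D.big
  have hlen := D.fr.len
  split_ifs with h1
  · rw [c.ye, ← cont_start hT hs hg (c.t.Y - 1 - i) (by omega) (by omega)]
    congr 1
    unfold TD.L
    push_cast
    omega
  · by_cases h2 : i < c.t.Y + D.k2
    · have h3 := hT.f3 s hs hg (D.k2 - 1 - (i - c.t.Y)) (by omega)
      have e1 : D.k2 - 1 - (D.k2 - 1 - (i - c.t.Y)) = i - c.t.Y := by omega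
      rw [e1] at h3
      rw [← h3]
      congr 1
      push_cast
      omega
    · have h3 := (D.fr.nx (i - c.t.Y - D.k2) (by omega)).2.2
      have e1 : D.k2 + (i - c.t.Y - D.k2) = i - c.t.Y := by omega
      rw [e1] at h3
      rw [h3, ← hT.f2 s hs hg (c.t.Y - 1 - (i - c.t.Y - D.k2)) (by omega)]
      congr 1
      push_cast
      omega

end

/-- FRA: the frames. -/
theorem pf_FRA : T_FRA := by
  intro d m c D B z col hT s hs g hg
  have hY := c.t.Y0
  have hbig := D.big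
  have hlen := D.fr.len
  obtain ⟨g', hg', hN⟩ := hT.next s hs
  have hgg : g = g' := Nx_uniq hg hN
  subst hgg
  rcases hg' with rfl | rfl
  · -- the short frames
    have hS := fun i hi => short hT hs hg i hi
    have e1 : s + (D.L : ℤ) + (c.t.Y : ℤ) - (D.n : ℤ) + (c.t.Y : ℤ) - 1
        = s + ((D.N0 + 2 * c.t.Y - 1 : ℕ) : ℤ) := by
      unfold TD.L
      push_cast
      omega
    refine ⟨?_, ?_⟩
    · intro q x hq hx hx'
      exact fwd_Fr c hS q x hq (by omega) (by omega)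
    · intro x hx hx' he
      exact (fwd_no c hS x hx (by omega) he).elim
  · -- the long frames
    have hS := fun i hi => long1 hT hs hg i hi
    have hR := fun i hi => long2 hT hs hg i hi
    have e1 : s + ((D.L + 1 : ℕ) : ℤ) + (c.t.Y : ℤ) - (D.n : ℤ)
        = s + (D.k1 + D.k2 + 2 * c.t.Y : ℕ) := by
      unfold TD.L
      push_cast
      omega
    rw [e1]
    have n1 : ∀ x : ℤ, s < x → x < s + c.t.Y + D.k1 →
        (∀ i : ℕ, i < c.t.Y → z (x + i) = c.e) → False := by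
      intro x hx hx' he
      exact fwd_no c hS x hx (by omega) he
    have n2 : ∀ x : ℤ, s + c.t.Y + D.k1 < x → x < s + (D.k1 + D.k2 + 2 * c.t.Y : ℕ) →
        (∀ i : ℕ, i < c.t.Y → z (x + i) = c.e) → False := by
      intro x hx hx' he
      exact rev_no c hR x (by omega) (by omega) he
    refine ⟨?_, ?_⟩
    · intro q x hq hx hx'
      by_cases h1 : x + m q ≤ s + c.t.Y + D.k1 + c.t.Y - 1
      · exact fwd_Fr c hS q x hq (by omega) (by omega)
      by_cases h2 : s + c.t.Y + D.k1 < x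
      · exact rev_Fr c hR q x hq (by omega) (by omega)
      by_contra hcon
      push Not at hcon
      have hm := c.my q hq
      by_cases h3 : x ≤ s + c.t.Y + D.k1 - q
      · refine n1 (s + c.t.Y + D.k1 - q) (by omega) (by omega) ?_
        intro i hi
        rw [← hT.f2 s hs hg i hi, ← hcon (s + c.t.Y + D.k1 - q + i) (by omega) (by omega)]
        congr 1
        ring
      · refine n2 (s + c.t.Y + D.k1 + q) (by omega) (by omega) ?_
        intro i hi
        rw [← hT.f2 s hs hg i hi, ← hcon (s + c.t.Y + D.k1 + i) (by omega) (by omega)]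
        congr 1
        ring
    · intro x hx hx' he
      refine ⟨rfl, ?_⟩
      rcases lt_trichotomy x (s + c.t.Y + D.k1) with h | h | h
      · exact (n1 x hx h he).elim
      · exact h
      · exact (n2 x h hx' he).elim

end Pool.Agent.H12.PG
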